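import Pool.Agent.U365.TAU.H
import Pool.Agent.Results.MP_648c71_nt.QuadraticsThinClasses

/-!
# The Liouville function at all polynomials `a t² ± n` for aliquot sums, cototients and similar integers `n`

Let `f` be any positive multiplicative function of moderate growth with `f(p) = p + d`, `d ≠ 0`, for all large primes `p`
(Euler's function, the sum of the divisors). There is a function `κ(m)` tending to infinity such that for almost all `m`, with
`K = κ(m)`: if `m` has a prime factor larger than `m^(1/2 + 1/(K + 1))`, then ALL the integers `c = ± (α m + β f(m))` with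
`0 < |α|, |β| ≤ K` and `|c| ≥ m / (log m)^K` have the property: for ALL `a ≠ 0` with `|a| ≤ (log |c|)^K`, in ALL progressions
modulo any `s ≤ (log |c|)^K` and for ALL `y ≤ √|c| (log |c|)^(K/2)`, the sum of `λ(a t² + c)` over the `t ≤ y` of the
progression is at most `√|c| / (log |c|)^K`. In particular this is so for `c = ± s(m)` and `c = ± (m - φ(m))`, where `s(m)` is
the sum of the proper divisors of `m`, for at least one half of all integers `m`.

These functions are not multiplicative and nothing is known on the distribution of their values in the residue classes to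
large moduli; the values are taken with large multiplicities, so that the known theorem (the bound for almost all `c`, up to a
small number of exceptions `|c| ≤ X`) says nothing on them.

Proof. Write `m = k p` with the large prime factor `p`. Then `α m + β f(m) = A p + B` with `A = α k + β f(k)` and
`B = β d f(k)`, where `A` is at most `x^(1/2 - ρ)`, up to a power of the logarithm. The theorem on the quadratic polynomials
with almost any given constant term in a residue class modulo `A` (`QuadraticsThinClasses`, starting file) is applied for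
every `k`. It needs that `A` has at most `(log x)^T` divisors; this is shown for almost all `m` in `U365/TAU`, with another
prime factor `v > x^δ` of `m`: `A` is a linear function of `v`, and an inequality of Wolke and Landreau is applied.
-/

set_option autoImplicit false

namespace Pool.Agent.Results.MP_648c71_nt.AliquotConstantTerms

open Finset Filter Topology
open Pool.Agent.Results.MP_648c71_nt.QuadraticsThinClasses (lamSum exceptions)
open Pool.Agent.U365.AQG (Moderate LargePrime AlmostAll aliquot)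
open Pool.Agent.U365.TAU (EBD ebd_of ebd_forall_le ebd_mono uniform uniform_both density_uniform)
open H359R2 (tau)

/-- For ALL `a ≠ 0` with `|a| ≤ (log |c|)^K`, ALL progressions `r` modulo `1 ≤ s ≤ (log |c|)^K` and ALL
`y ≤ √|c| (log |c|)^(K/2)` the absolute value of the sum of `λ(a t² + c)` over the `t ≤ y`, `t ≡ r (mod s)`, is at most
`√|c| / (log |c|)^K`. -/
def Small (K : ℕ) (c : ℤ) : Prop :=
  ∀ a : ℤ, a ≠ 0 → (|a| : ℝ) ≤ Real.log c.natAbs ^ K → ∀ s r y : ℕ, 1 ≤ s → (s : ℝ) ≤ Real.log c.natAbs ^ K →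
    (y : ℝ) ^ 2 ≤ c.natAbs * Real.log c.natAbs ^ K →
      |((lamSum a 0 c s r y : ℤ) : ℝ)| ≤ Real.sqrt c.natAbs / Real.log c.natAbs ^ K

/-- the property at a scale -/
def One (K C X : ℕ) (c : ℤ) : Prop :=
  ∀ a : ℤ, a ≠ 0 → (|a| : ℝ) ≤ Real.log X ^ K → ∀ s r y : ℕ, 1 ≤ s → (s : ℝ) ≤ Real.log X ^ K → y ^ 2 ≤ X →
    |((lamSum a 0 c s r y : ℤ) : ℝ)| ≤ Real.sqrt X / Real.log X ^ C

/-- the property of both signs at a scale -/
def Both (K C X n : ℕ) : Prop := One K C X n ∧ One K C X (-(n : ℤ))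

theorem gcd_four (a c : ℤ) (q : ℕ) (hq : 1 ≤ q) (ha : a ≠ 0) :
    Int.gcd ((0 : ℤ) ^ 2 - 4 * a * c) q ≤ 4 * a.natAbs * Int.gcd c q := by
  have e2 : ((0 : ℤ) ^ 2 - 4 * a * c) = -((4 * a) * c) := by ring
  rw [e2, Int.neg_gcd]
  have e5 : Int.gcd ((4 * a) * c) q ∣ Int.gcd ((4 * a) * c) ((4 * a) * q) :=
    Int.gcd_dvd_gcd_mul_left_right _ _ _
  rw [Int.gcd_mul_left] at e5
  have e6 : (4 * a).natAbs = 4 * a.natAbs := by rw [Int.natAbs_mul]; rfl
  rw [e6] at e5
  apply Nat.le_of_dvd _ e5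
  have h1 : 0 < a.natAbs := Int.natAbs_pos.2 ha
  have h2 : 0 < Int.gcd c q := Int.gcd_pos_of_ne_zero_right _ (by exact_mod_cast (by omega : q ≠ 0))
  positivity

open Classical in
/-- few exceptions at a scale -/
theorem few (K C : ℕ) : ∀ ρ : ℝ, 0 < ρ → ∀ A T : ℕ, ∃ X₀ : ℕ, ∀ X : ℕ, X₀ ≤ X → ∀ q : ℕ, 1 ≤ q →
    (q : ℝ) ≤ (X : ℝ) ^ (1 / 2 - ρ) → (tau q : ℝ) ≤ Real.log X ^ T → ∀ a : ℤ, (Int.gcd a q : ℝ) ≤ Real.log X ^ T →
      (((Icc 1 X).filter (fun n : ℕ => (n : ℤ) ≡ a [ZMOD q] ∧ ¬ Both K C X n)).card : ℝ) ≤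
        X / (q * Real.log X ^ A) := by
  intro ρ hρ A T
  obtain ⟨X₀, h0⟩ := Pool.Agent.Results.MP_648c71_nt.QuadraticsThinClasses.result ρ hρ (A + 1) C (K + T + 1) K
  obtain ⟨X₁, h1⟩ := eventually_atTop.1 ((Real.tendsto_log_atTop.comp (tendsto_natCast_atTop_atTop (R := ℝ))).eventually_ge_atTop
    (4 : ℝ))
  refine ⟨X₀ + X₁ + 1, fun X hX q hq hqX hτ a ha => ?_⟩
  have hL : 4 ≤ Real.log (X : ℝ) := h1 X (by omega)
  have hL1 : 1 ≤ Real.log (X : ℝ) := by linarith
  have hL0 : 0 < Real.log (X : ℝ) := by linarith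
  have hτ' : (q.divisors.card : ℝ) ≤ Real.log X ^ (K + T + 1) := hτ.trans (pow_le_pow_right₀ hL1 (by omega))
  have e1 := h0 X (by omega) q hq hqX hτ' a
  have e2 := h0 X (by omega) q hq hqX hτ' (-a)
  unfold exceptions at e1 e2
  -- the property for one integer
  have hone : ∀ a₀ : ℤ, (Int.gcd a₀ q : ℝ) ≤ Real.log X ^ T → ∀ c : ℤ, c ≡ a₀ [ZMOD q] →
      Pool.Agent.Results.MP_648c71_nt.QuadraticsThinClasses.Good C (K + T + 1) K X q c → One K C X c := by
    intro a₀ ha₀ c hc hg b hb hbK s r y hs1 hs2 hy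
    refine hg b 0 hb hbK ?_ ?_ s r y hs1 hs2 hy
    · rw [Int.cast_zero, abs_zero]
      positivity
    · have g1 := gcd_four b c q hq hb
      have g2 : Int.gcd c q = Int.gcd a₀ q := by
        have hc' : c % q = a₀ % q := hc
        rw [← Int.gcd_emod c q, hc', Int.gcd_emod]
      rw [g2] at g1
      have g3 : ((b.natAbs : ℕ) : ℝ) = |(b : ℝ)| := by
        rw [Nat.cast_natAbs]
        push_cast
        rfl
      have g4 : ((Int.gcd ((0 : ℤ) ^ 2 - 4 * b * c) q : ℕ) : ℝ) ≤ 4 * (b.natAbs : ℝ) * (Int.gcd a₀ q : ℝ) := by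
        exact_mod_cast g1
      refine g4.trans ?_
      rw [g3]
      calc 4 * |(b : ℝ)| * (Int.gcd a₀ q : ℝ) ≤ Real.log X * Real.log X ^ K * Real.log X ^ T := by
            apply mul_le_mul _ ha₀ (Nat.cast_nonneg _) (by positivity)
            exact mul_le_mul hL hbK (abs_nonneg _) hL0.le
        _ = Real.log X ^ (K + T + 1) := by ring
  have hsub : ((Icc 1 X).filter (fun n : ℕ => (n : ℤ) ≡ a [ZMOD q] ∧ ¬ Both K C X n)).card ≤
      ((Icc (-(X : ℤ)) X).filter (fun b : ℤ => b ≡ a [ZMOD q] ∧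
        ¬ Pool.Agent.Results.MP_648c71_nt.QuadraticsThinClasses.Good C (K + T + 1) K X q b)).card +
        ((Icc (-(X : ℤ)) X).filter (fun b : ℤ => b ≡ -a [ZMOD q] ∧
        ¬ Pool.Agent.Results.MP_648c71_nt.QuadraticsThinClasses.Good C (K + T + 1) K X q b)).card := by
    have f1 : (Icc 1 X).filter (fun n : ℕ => (n : ℤ) ≡ a [ZMOD q] ∧ ¬ Both K C X n) ⊆
        (Icc 1 X).filter (fun n : ℕ => (n : ℤ) ≡ a [ZMOD q] ∧
          ¬ Pool.Agent.Results.MP_648c71_nt.QuadraticsThinClasses.Good C (K + T + 1) K X q n) ∪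
          (Icc 1 X).filter (fun n : ℕ => (-(n : ℤ)) ≡ -a [ZMOD q] ∧
          ¬ Pool.Agent.Results.MP_648c71_nt.QuadraticsThinClasses.Good C (K + T + 1) K X q (-n)) := by
      intro n hn
      rw [mem_filter] at hn
      rw [mem_union, mem_filter, mem_filter]
      by_cases h : Pool.Agent.Results.MP_648c71_nt.QuadraticsThinClasses.Good C (K + T + 1) K X q n
      · refine Or.inr ⟨hn.1, hn.2.1.neg, fun h2 => hn.2.2 ⟨hone a ha n hn.2.1 h, ?_⟩⟩
        exact hone (-a) (by rwa [Int.neg_gcd]) _ hn.2.1.neg h2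
      · exact Or.inl ⟨hn.1, hn.2.1, h⟩
    refine (card_le_card f1).trans ((card_union_le _ _).trans (Nat.add_le_add ?_ ?_))
    · apply card_le_card_of_injOn (fun n : ℕ => (n : ℤ))
      · intro n hn
        rw [mem_coe, mem_filter, mem_Icc] at hn
        show (n : ℤ) ∈ _
        rw [mem_coe, mem_filter, mem_Icc]
        exact ⟨⟨by omega, by exact_mod_cast hn.1.2⟩, hn.2⟩
      · intro n _ m _ h
        have h' : (n : ℤ) = m := h
        exact_mod_cast h'
    · apply card_le_card_of_injOn (fun n : ℕ => -(n : ℤ))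
      · intro n hn
        rw [mem_coe, mem_filter, mem_Icc] at hn
        show (-(n : ℤ)) ∈ _
        rw [mem_coe, mem_filter, mem_Icc]
        exact ⟨⟨by omega, by omega⟩, hn.2⟩
      · intro n _ m _ h
        have h' : (-(n : ℤ)) = -(m : ℤ) := h
        have h'' : (n : ℤ) = m := neg_injective h'
        exact_mod_cast h''
  have hsub' : (((Icc 1 X).filter (fun n : ℕ => (n : ℤ) ≡ a [ZMOD q] ∧ ¬ Both K C X n)).card : ℝ) ≤
      (((Icc (-(X : ℤ)) X).filter (fun b : ℤ => b ≡ a [ZMOD q] ∧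
        ¬ Pool.Agent.Results.MP_648c71_nt.QuadraticsThinClasses.Good C (K + T + 1) K X q b)).card : ℝ) +
        (((Icc (-(X : ℤ)) X).filter (fun b : ℤ => b ≡ -a [ZMOD q] ∧
        ¬ Pool.Agent.Results.MP_648c71_nt.QuadraticsThinClasses.Good C (K + T + 1) K X q b)).card : ℝ) := by
    exact_mod_cast hsub
  refine hsub'.trans ((add_le_add e1 e2).trans ?_)
  have hq0 : (0 : ℝ) < q := by exact_mod_cast hq
  have hX0 : (0 : ℝ) ≤ X := Nat.cast_nonneg _
  have e : (X : ℝ) / (q * Real.log X ^ (A + 1)) = X / (q * Real.log X ^ A) * (1 / Real.log X) := by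
    rw [pow_succ]
    field_simp
  have e3 : (1 : ℝ) / Real.log X ≤ 1 / 2 := one_div_le_one_div_of_le (by norm_num) (by linarith)
  have e4 : 0 ≤ (X : ℝ) / (q * Real.log X ^ A) := by positivity
  rw [e]
  nlinarith

theorem natAbs_pm (n : ℕ) : ((n : ℤ)).natAbs = n ∧ (-(n : ℤ)).natAbs = n := by
  constructor <;> simp

theorem ebd (K : ℕ) : EBD (1 / 2) (fun n => Small K n ∧ Small K (-(n : ℤ))) := by
  refine ebd_of (1 / 2) (by norm_num) (by norm_num) K (fun C' X n => Both K C' X n) _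
    (fun ρ hρ A C' T => few K C' ρ hρ A T) (fun A => ?_)
  obtain ⟨X₁, hX₁⟩ := eventually_atTop.1 ((Real.tendsto_log_atTop.comp
    (tendsto_natCast_atTop_atTop (R := ℝ))).eventually_ge_atTop (1 : ℝ))
  obtain ⟨X₂, hX₂⟩ := eventually_atTop.1 ((Pool.Agent.R460.GS.real_log A (s := 1 / 2) (by norm_num) ((X₁ : ℝ) + 1)))
  obtain ⟨X₃, hX₃⟩ := exists_nat_ge X₂
  refine ⟨A + K, X₁ + X₃ + X₁ ^ 2 + 1, fun X hX n hn hnA hnK hg => ?_⟩
  have hL1 : 1 ≤ Real.log (X : ℝ) := hX₁ X (by omega)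
  obtain ⟨g1, g2⟩ := hX₂ X (hX₃.trans (by exact_mod_cast (by omega : X₃ ≤ X)))
  have hX0 : (0 : ℝ) < X := by exact_mod_cast (by omega : 0 < X)
  have hLA : 0 < Real.log (X : ℝ) ^ A := by positivity
  have hnr : (0 : ℝ) < n := by exact_mod_cast hn
  have hnn : X₁ ≤ n := by
    have e1 : (X₁ : ℝ) ≤ n := by
      refine le_trans ?_ hnA
      rw [le_div_iff₀ hLA]
      have e2 : (X₁ : ℝ) ≤ (X : ℝ) ^ (1 / 2 : ℝ) := by
        have e3 : (((X₁ ^ 2 : ℕ) : ℝ)) ^ (1 / 2 : ℝ) = X₁ := by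
          push_cast
          rw [← Real.sqrt_eq_rpow, Real.sqrt_sq (Nat.cast_nonneg _)]
        rw [← e3]
        apply Real.rpow_le_rpow (Nat.cast_nonneg _) _ (by norm_num)
        exact_mod_cast (by omega : X₁ ^ 2 ≤ X)
      calc (X₁ : ℝ) * Real.log X ^ A ≤ (X : ℝ) ^ (1 / 2 : ℝ) * (X : ℝ) ^ (1 / 2 : ℝ) :=
            mul_le_mul e2 g2 (by positivity) (by positivity)
        _ = X := by
            rw [← Real.rpow_add hX0]
            norm_num
    exact_mod_cast e1
  have hln : 1 ≤ Real.log (n : ℝ) := hX₁ n hnn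
  have hnX : (n : ℝ) ≤ X := by
    refine le_trans ?_ hnK
    exact le_mul_of_one_le_right hnr.le (one_le_pow₀ hln)
  have hlnX : Real.log (n : ℝ) ≤ Real.log X := Real.log_le_log hnr hnX
  have hlnXK : Real.log (n : ℝ) ^ K ≤ Real.log X ^ K := pow_le_pow_left₀ (by linarith) hlnX K
  have herr : Real.sqrt X / Real.log X ^ (A + K) ≤ Real.sqrt n / Real.log n ^ K := by
    have e1 : Real.sqrt X ≤ Real.sqrt n * Real.log X ^ A := by
      have e2 : (X : ℝ) ≤ n * Real.log X ^ A := by
        rwa [div_le_iff₀ hLA] at hnA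
      calc Real.sqrt X ≤ Real.sqrt (n * Real.log X ^ A) := Real.sqrt_le_sqrt e2
        _ = Real.sqrt n * Real.sqrt (Real.log X ^ A) := Real.sqrt_mul hnr.le _
        _ ≤ Real.sqrt n * Real.log X ^ A := by
            apply mul_le_mul_of_nonneg_left _ (Real.sqrt_nonneg _)
            rw [Real.sqrt_le_left hLA.le]
            have : 1 ≤ Real.log (X : ℝ) ^ A := one_le_pow₀ hL1
            nlinarith
    calc Real.sqrt X / Real.log X ^ (A + K) ≤ (Real.sqrt n * Real.log X ^ A) / Real.log X ^ (A + K) :=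
          div_le_div_of_nonneg_right e1 (by positivity)
      _ = Real.sqrt n / Real.log X ^ K := by
          rw [pow_add]
          field_simp
      _ ≤ Real.sqrt n / Real.log n ^ K := by
          apply div_le_div_of_nonneg_left (Real.sqrt_nonneg _) (by positivity)
          exact hlnXK
  obtain ⟨k1, k2⟩ := natAbs_pm n
  unfold Small
  rw [k1, k2]
  exact ⟨fun a ha0 ha s r y hs1 hs2 hy => (hg.1 a ha0 (ha.trans hlnXK) s r y hs1 (hs2.trans hlnXK)
      (by exact_mod_cast hy.trans hnK)).trans herr,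
    fun a ha0 ha s r y hs1 hs2 hy => (hg.2 a ha0 (ha.trans hlnXK) s r y hs1 (hs2.trans hlnXK)
      (by exact_mod_cast hy.trans hnK)).trans herr⟩

open Classical in
/-- **The Liouville function at the polynomials `a t² + c` for aliquot sums, cototients and similar integers `c`.** (1) Let
`f` be a positive multiplicative function of moderate growth with `f p = p + d`, `d ≠ 0`, for all large primes `p`. There is a
function `κ` tending to infinity such that for almost all `m`, with `K = κ m`: if `m` has a prime factor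
`≥ m^(1/2 + 1/(K + 1))`, then `Small K c` and `Small K (-c)` for ALL integers `c = α m + β f(m) ≥ m / (log m)^K` with nonzero
integers `|α|, |β| ≤ K`. (2) Euler's function and the sum of the divisors are examples. (3) There is a function `κ` tending to
infinity such that for almost all `m`, with `K = κ m`: if `m` has a prime factor `≥ m^(1/2 + 1/(K + 1))`, then `Small K c` for
`c = s(m)`, `c = - s(m)`, `c = m - φ(m)` and `c = φ(m) - m`. For every `δ < 1/2` the proportion of the `m ≤ N` for which this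
conclusion holds is at least `δ` for all large `N`. -/
theorem result :
    (∀ (f : ℕ → ℕ) (d : ℤ), Moderate f d → d ≠ 0 → ∃ κ : ℕ → ℕ, Tendsto κ atTop atTop ∧
      AlmostAll (fun m => LargePrime (1 / 2 + 1 / ((κ m : ℝ) + 1)) m → ∀ α β : ℤ, α ≠ 0 → β ≠ 0 → |α| ≤ κ m → |β| ≤ κ m →
        (m : ℝ) / Real.log m ^ κ m ≤ ((α * m + β * f m : ℤ) : ℝ) →
          Small (κ m) (α * m + β * f m) ∧ Small (κ m) (-(α * m + β * f m)))) ∧
    (Moderate Nat.totient (-1) ∧ Moderate (fun m => ∑ d ∈ m.divisors, d) 1) ∧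
    ∃ κ : ℕ → ℕ, Tendsto κ atTop atTop ∧
      AlmostAll (fun m => LargePrime (1 / 2 + 1 / ((κ m : ℝ) + 1)) m →
        (Small (κ m) (aliquot m) ∧ Small (κ m) (-(aliquot m : ℤ))) ∧
          Small (κ m) ((m : ℤ) - Nat.totient m) ∧ Small (κ m) (Nat.totient m - (m : ℤ))) ∧
      ∀ δ : ℝ, δ < 1 / 2 → ∃ N₀ : ℕ, ∀ N : ℕ, N₀ ≤ N → δ * N ≤
        (((Icc 1 N).filter (fun m : ℕ => (Small (κ m) (aliquot m) ∧ Small (κ m) (-(aliquot m : ℤ))) ∧
          Small (κ m) ((m : ℤ) - Nat.totient m) ∧ Small (κ m) (Nat.totient m - (m : ℤ)))).card : ℝ) := by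
  have hE : ∀ j, EBD (1 / 2) (fun n => ∀ i ≤ j, Small i n ∧ Small i (-(n : ℤ))) := fun j => ebd_forall_le ebd j
  have hmono : ∀ i j n : ℕ, i ≤ j → (∀ l ≤ j, Small l n ∧ Small l (-(n : ℤ))) → ∀ l ≤ i, Small l n ∧ Small l (-(n : ℤ)) :=
    fun i j n hij h l hl => h l (hl.trans hij)
  refine ⟨fun f d hf hd => ?_, ⟨Pool.Agent.U365.AQG.moderate_totient, Pool.Agent.U365.AQG.moderate_sigma⟩, ?_⟩
  · obtain ⟨κ, h1, h2⟩ := uniform (1 / 2) (by norm_num) (by norm_num) _ hmono hE hf hd
    rw [show (1 - 1 / 2 : ℝ) = 1 / 2 by norm_num] at h2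
    obtain ⟨m₀, hm₀⟩ := Pool.Agent.U365.AQG.log_large
    refine ⟨κ, h1, Pool.Agent.U365.AQG.almostAll_and h2 h2 (m₀ + 1) (fun m hm h3 _ hl α β hα hβ hα1 hβ1 hg => ?_)⟩
    have h4 := h3 hl α β hα hβ hα1 hβ1 hg (κ m) le_rfl
    have hm0 : (0 : ℝ) < m := by exact_mod_cast (by omega : 0 < m)
    have hlog : 0 < Real.log (m : ℝ) := by linarith [hm₀ m (by omega)]
    have hpos : (0 : ℝ) < ((α * m + β * f m : ℤ) : ℝ) := lt_of_lt_of_le (by positivity) hg
    have hpos' : 0 < α * m + β * f m := by exact_mod_cast hpos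
    have e : (((α * m + β * f m).toNat : ℕ) : ℤ) = α * m + β * f m := Int.toNat_of_nonneg hpos'.le
    rw [e] at h4
    exact h4
  · obtain ⟨κ, h1, h2⟩ := uniform_both (1 / 2) (by norm_num) (by norm_num) _ hmono hE
    have h3 : AlmostAll (fun m => LargePrime (1 - 1 / 2 + 1 / ((κ m : ℝ) + 1)) m →
        (Small (κ m) (aliquot m) ∧ Small (κ m) (-(aliquot m : ℤ))) ∧
          Small (κ m) ((m : ℤ) - Nat.totient m) ∧ Small (κ m) (Nat.totient m - (m : ℤ))) := by
      refine Pool.Agent.U365.AQG.almostAll_and h2 h2 0 (fun m _ h3 _ hl => ?_)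
      obtain ⟨⟨-, a1⟩, -, a2⟩ := h3 hl
      refine ⟨a1 _ le_rfl, ?_⟩
      have a3 := a2 _ le_rfl
      have e : (((m - Nat.totient m : ℕ) : ℕ) : ℤ) = (m : ℤ) - Nat.totient m := Nat.cast_sub (Nat.totient_le m)
      rw [e, neg_sub] at a3
      exact a3
    refine ⟨κ, h1, ?_, fun δ hδ => ?_⟩
    · rw [show (1 - 1 / 2 : ℝ) = 1 / 2 by norm_num] at h3
      exact h3
    · obtain ⟨N₀, h⟩ := density_uniform (1 / 2) (by norm_num) _ κ h1 h3 δ hδ
      exact ⟨N₀, fun N hN => (h N hN).trans (Nat.cast_le.2 (Pool.Agent.U365.AQG.card_mono' (fun m hm => hm)))⟩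

end Pool.Agent.Results.MP_648c71_nt.AliquotConstantTerms
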