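import Pool.Agent.U708.VC.Words

/-!
# Liouville at the values of almost all polynomials is orthogonal to all sequences of low complexity at once

Let `f` be a polynomial of degree at most `d` with integer coefficients in `[-H, H]`. For almost all `f` the
sequence `λ(f(n + h₀)) g₁(n, f(n + h₁)) ⋯ g_k(n, f(n + h_k))` (one value of the Liouville function, the other
factors arbitrary) is orthogonal, with a power saving, to ALL members of a class of sets or functions at the same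
time, in all segments of all progressions up to any power of `log H`, if the members of the class have at most
`C₀ y ^ B` different traces on the progressions with `y` terms, `B < m`, `m (k + 1) ≤ d`. This is the case

* for every class of sets of integers (and for the functions whose superlevel sets are in such a class) of
  Vapnik-Chervonenkis dimension `B`,
* for the points of all subshifts with at most `C₀ N ^ B` words of length `N`, in all intervals.

For `k = 0` (only `λ(f(n))`): complexity `B < d`, saving `N ^ ((d - B) / (2 d))`.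

Proof. The moments of the sums over arbitrary sets of arguments (`TP975/LR`, starting files: Davenport's
theorem in one coefficient and a count of the pairings) give an exceptional set for each trace of the class on each
dyadic block of a progression; `U708/VC` (new): these sets are summed over the traces, all members of the class are
chained along the dyadic blocks; layer cake; the lemma of Sauer and Shelah (Mathlib).
-/

set_option autoImplicit false

namespace Pool.Agent.Results.MP_648c71_nt.LowComplexity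

open Finset

/-- The Liouville function, `λ(-n) = λ(n)`, `λ(0) = 0`. -/
noncomputable def liouville (n : ℤ) : ℝ := if n = 0 then 0 else (-1) ^ ArithmeticFunction.cardFactors n.natAbs

/-- The value at `t` of the polynomial `f` with the coefficients `f 0, ..., f d`. -/
def value {d : ℕ} (f : Fin (d + 1) → ℤ) (t : ℤ) : ℤ := ∑ c, f c * t ^ (c : ℕ)

/-- The polynomials of degree at most `d` with coefficients in `[-H, H]`. -/
noncomputable def polynomials (d H : ℕ) : Finset (Fin (d + 1) → ℤ) := Fintype.piFinset fun _ => Icc (-(H : ℤ)) H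

/-- The sum over the progression `n = r + q u`, `1 ≤ u ≤ N`, of
`ψ(n) λ(f(n + h 0)) g₁(n, f(n + h 1)) ⋯ g_k(n, f(n + h k))`. -/
noncomputable def twistedSum {d k : ℕ} (f : Fin (d + 1) → ℤ) (g : Fin k → ℤ → ℤ → ℂ) (h : Fin (k + 1) → ℤ)
    (ψ : ℤ → ℂ) (q r N : ℕ) : ℂ :=
  ∑ u ∈ Icc 1 N, ψ ((r + q * u : ℕ) : ℤ) * ((liouville (value f (((r + q * u : ℕ) : ℤ) + h 0)) : ℂ) *
    ∏ j : Fin k, g j ((r + q * u : ℕ) : ℤ) (value f (((r + q * u : ℕ) : ℤ) + h j.succ)))

/-- The progression `r + q u`, `1 ≤ u ≤ y`. -/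
def progression (q r y : ℕ) : Set ℤ := {n | ∃ u : ℕ, 1 ≤ u ∧ u ≤ y ∧ n = ((r + q * u : ℕ) : ℤ)}

/-- The class `𝒢` of sets of integers has at most `C₀ y ^ B` traces on each progression with `y` terms and with
a difference in `Q`. -/
def FewTraces (𝒢 : Set (Set ℤ)) (Q : Set ℕ) (C₀ : ℝ) (B : ℕ) : Prop :=
  ∀ q ∈ Q, ∀ r y : ℕ, 1 ≤ y → (((fun G => G ∩ progression q r y) '' 𝒢).ncard : ℝ) ≤ C₀ * (y : ℝ) ^ B

/-- The class `𝒢` shatters the finite set `P`: every subset of `P` is the trace of a member of `𝒢`. -/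
def Shatters (𝒢 : Set (Set ℤ)) (P : Finset ℤ) : Prop := ∀ T ⊆ P, ∃ G ∈ 𝒢, ∀ n ∈ P, n ∈ G ↔ n ∈ T

/-- The words of length `N` of a set of sequences. -/
def words {b : ℕ} (X : Set (ℤ → Fin b)) (N : ℕ) : Set (Fin N → Fin b) :=
  {w | ∃ x ∈ X, ∃ s : ℤ, ∀ i : Fin N, w i = x (s + (i : ℕ))}

/-- All functions `ψ : ℤ → [0, 1]` whose superlevel sets are in the class `𝒢` (for example the indicator
functions of the members of `𝒢`) satisfy the inequality for all the shifts `h` and for all segments of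
progressions with differences in `Q`. -/
def Orthogonal {d k : ℕ} (f : Fin (d + 1) → ℤ) (g : Fin k → ℤ → ℤ → ℂ) (m B A H : ℕ) (ε η : ℝ) (𝒢 : Set (Set ℤ))
    (Q : Set ℕ) : Prop :=
  ∀ h : Fin (k + 1) → ℤ, (∀ j, 0 ≤ h j ∧ (h j : ℝ) ≤ Real.log H ^ η) → (∀ j : Fin k, h j.succ ≠ h 0) →
  ∀ ψ : ℤ → ℝ, (∀ n, 0 ≤ ψ n ∧ ψ n ≤ 1) → (∀ t : ℝ, 0 ≤ t → t < 1 → {n : ℤ | t < ψ n} ∈ 𝒢) →
  ∀ q ∈ Q, ∀ r N : ℕ, 1 ≤ q → 1 ≤ N → ((r + q * N : ℕ) : ℝ) ≤ Real.log H ^ A →
    ‖twistedSum f g h (fun n => (ψ n : ℂ)) q r N‖ ^ (2 * m) ≤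
      (q : ℝ) * ((r + q * N : ℕ) : ℝ) * (N : ℝ) ^ (m + B - 1) * Real.log H ^ ε

open Classical in
lemma tr_le (𝒢 : Set (Set ℤ)) (q r y : ℕ) :
    (U708.VC.tr 𝒢 (U708.VC.prog q r y)).card ≤ ((fun G => G ∩ progression q r y) '' 𝒢).ncard := by
  have hP : ∀ n : ℤ, n ∈ U708.VC.prog q r y ↔ n ∈ progression q r y := by
    intro n
    unfold U708.VC.prog progression
    rw [mem_image]
    constructor
    · rintro ⟨u, hu, rfl⟩
      rw [mem_Icc] at hu
      exact ⟨u, hu.1, hu.2, rfl⟩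
    · rintro ⟨u, h1, h2, h3⟩
      exact ⟨u, mem_Icc.2 ⟨h1, h2⟩, h3.symm⟩
  have hfin : ((fun G => G ∩ progression q r y) '' 𝒢).Finite := by
    have h1 : (𝒫 (progression q r y)).Finite := by
      apply Set.Finite.finite_subsets
      refine Set.Finite.subset (finite_toSet (U708.VC.prog q r y)) fun n hn => ?_
      exact (hP n).2 hn
    refine h1.subset ?_
    rintro _ ⟨G, _, rfl⟩
    exact Set.inter_subset_right
  have h1 : ((U708.VC.tr 𝒢 (U708.VC.prog q r y) : Set (Finset ℤ)).ncard) ≤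
      ((fun G => G ∩ progression q r y) '' 𝒢).ncard := by
    refine Set.ncard_le_ncard_of_injOn (fun T : Finset ℤ => (T : Set ℤ)) ?_ ?_ hfin
    · intro T hT
      rw [mem_coe] at hT
      unfold U708.VC.tr at hT
      rw [mem_filter, mem_powerset] at hT
      obtain ⟨hTP, G, hG, hGT⟩ := hT
      refine ⟨G, hG, ?_⟩
      ext n
      show (n ∈ G ∧ n ∈ progression q r y) ↔ n ∈ (T : Set ℤ)
      rw [mem_coe]
      constructor
      · rintro ⟨h1, h2⟩
        exact (hGT n ((hP n).2 h2)).2 h1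
      · intro h
        exact ⟨(hGT n (hTP h)).1 h, (hP n).1 (hTP h)⟩
    · intro T _ T' _ h
      exact coe_injective h
  rw [Set.ncard_coe_finset] at h1
  exact h1

/-- **Liouville at the values of almost all polynomials and all sequences of low complexity.** Let `m ≥ 1`,
`m (k + 1) ≤ d`, let `A`, `B`, `C₀` and `ε > 0` be fixed. There is `η > 0` such that for all large `H` and all
functions `g` with values in the unit disc (of two integers, arbitrary):
(I) for every class `𝒢` of sets of integers with at most `C₀ y ^ B` traces on the progressions with `y` terms and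
difference in `Q`, all but `#polynomials / (log H) ^ η` of the polynomials satisfy the inequality for ALL functions with
superlevel sets in `𝒢`;
(II) in particular this holds, with `B = v` and for all differences, for every class of Vapnik-Chervonenkis
dimension at most `v` (no `v + 1` integers are shattered);
(III) for every set `X` of two-sided sequences of `b` letters with at most `C₀ N ^ B` words of length `N`, all but
`#polynomials / (log H) ^ η` of the polynomials satisfy: for ALL `x ∈ X`, all functions `φ` of the letters with values in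
the unit disc, all shifts `h` and all intervals `(r, r + N]` with `r + N ≤ (log H) ^ A`,
`|∑ φ(x n) λ(f(n + h 0)) g₁(n, f(n + h 1)) ⋯ g_k(n, f(n + h k))| ^ (2 m) ≤ (r + N) N ^ (m + B - 1) (log H) ^ ε`. -/
theorem result (d A m k : ℕ) (hm : 1 ≤ m) (hmk : m * (k + 1) ≤ d) (ε : ℝ) (hε : 0 < ε) :
    (∀ (B : ℕ) (C₀ : ℝ), 1 ≤ C₀ → ∃ η : ℝ, 0 < η ∧ ∃ H₀ : ℕ, ∀ H : ℕ, H₀ ≤ H →
      ∀ g : Fin k → ℤ → ℤ → ℂ, (∀ j n v, ‖g j n v‖ ≤ 1) →
      ∀ (𝒢 : Set (Set ℤ)) (Q : Set ℕ), FewTraces 𝒢 Q C₀ B →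
      ∃ Bad ⊆ polynomials d H, (Bad.card : ℝ) ≤ (polynomials d H).card / Real.log H ^ η ∧
        ∀ f ∈ polynomials d H, f ∉ Bad → Orthogonal f g m B A H ε η 𝒢 Q) ∧
    (∀ v : ℕ, ∃ η : ℝ, 0 < η ∧ ∃ H₀ : ℕ, ∀ H : ℕ, H₀ ≤ H →
      ∀ g : Fin k → ℤ → ℤ → ℂ, (∀ j n v, ‖g j n v‖ ≤ 1) →
      ∀ 𝒢 : Set (Set ℤ), (∀ P : Finset ℤ, P.card = v + 1 → ¬ Shatters 𝒢 P) →
      ∃ Bad ⊆ polynomials d H, (Bad.card : ℝ) ≤ (polynomials d H).card / Real.log H ^ η ∧
        ∀ f ∈ polynomials d H, f ∉ Bad → Orthogonal f g m v A H ε η 𝒢 Set.univ) ∧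
    (∀ (b B : ℕ) (C₀ : ℝ), 1 ≤ C₀ → ∃ η : ℝ, 0 < η ∧ ∃ H₀ : ℕ, ∀ H : ℕ, H₀ ≤ H →
      ∀ g : Fin k → ℤ → ℤ → ℂ, (∀ j n v, ‖g j n v‖ ≤ 1) →
      ∀ X : Set (ℤ → Fin b), (∀ N : ℕ, 1 ≤ N → ((words X N).ncard : ℝ) ≤ C₀ * (N : ℝ) ^ B) →
      ∃ Bad ⊆ polynomials d H, (Bad.card : ℝ) ≤ (polynomials d H).card / Real.log H ^ η ∧
        ∀ f ∈ polynomials d H, f ∉ Bad →
          ∀ h : Fin (k + 1) → ℤ, (∀ j, 0 ≤ h j ∧ (h j : ℝ) ≤ Real.log H ^ η) → (∀ j : Fin k, h j.succ ≠ h 0) →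
          ∀ x ∈ X, ∀ φ : Fin b → ℂ, (∀ c, ‖φ c‖ ≤ 1) →
          ∀ r N : ℕ, 1 ≤ N → ((r + N : ℕ) : ℝ) ≤ Real.log H ^ A →
            ‖twistedSum f g h (fun n => φ (x n)) 1 r N‖ ^ (2 * m) ≤
              ((r + N : ℕ) : ℝ) * (N : ℝ) ^ (m + B - 1) * Real.log H ^ ε) := by
  classical
  refine ⟨fun B C₀ hC₀ => ?_, fun v => ?_, fun b B C₀ hC₀ => ?_⟩
  · obtain ⟨η, hη, H0, h0⟩ := U708.VC.cls_complex TP975.LR.lamI TP975.LR.winB_lamI TP975.LR.lamI_abs d A B m k hm hmk
      C₀ hC₀ ε hε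
    refine ⟨η, hη, H0, fun H hH g hg 𝒢 Q hQ => ?_⟩
    obtain ⟨Bad, hB1, hB2, hB3⟩ := h0 H hH g hg 𝒢 Q (fun q hq r y hy => by
      refine le_trans ?_ (hQ q hq r y hy)
      exact_mod_cast tr_le 𝒢 q r y)
    exact ⟨Bad, hB1, hB2, hB3⟩
  · obtain ⟨η, hη, H0, h0⟩ := U708.VC.cls_complex TP975.LR.lamI TP975.LR.winB_lamI TP975.LR.lamI_abs d A v m k hm hmk
      (2 ^ v) (one_le_pow₀ (by norm_num)) ε hε
    refine ⟨η, hη, H0, fun H hH g hg 𝒢 hv => ?_⟩
    have hns : U708.VC.NoShatter 𝒢 v := by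
      intro P hP
      have h1 := hv P hP
      unfold Shatters at h1
      push Not at h1
      obtain ⟨T, hT, h2⟩ := h1
      refine ⟨T, hT, fun G hG h3 => ?_⟩
      obtain ⟨n, hn, h4⟩ := h2 G hG
      have h5 := h3 n hn
      rcases h4 with ⟨h6, h7⟩ | ⟨h6, h7⟩
      · exact h7 (h5.2 h6)
      · exact h6 (h5.1 h7)
    obtain ⟨Bad, hB1, hB2, hB3⟩ := h0 H hH g hg 𝒢 Set.univ (fun q _ r y hy => U708.VC.vc_few 𝒢 v hns q r y hy)
    exact ⟨Bad, hB1, hB2, hB3⟩
  · obtain ⟨η, hη, H0, h0⟩ := U708.VC.few_words TP975.LR.lamI TP975.LR.winB_lamI TP975.LR.lamI_abs d A B m k hm hmk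
      b C₀ hC₀ ε hε
    refine ⟨η, hη, H0, fun H hH g hg X hX => ?_⟩
    obtain ⟨Bad, hB1, hB2, hB3⟩ := h0 H hH g hg X hX
    refine ⟨Bad, hB1, hB2, fun f hf hbad h hh hne x hx φ hφ r N hN hrN => ?_⟩
    have key := hB3 f hf hbad h hh hne x hx φ hφ r N hN hrN
    have e : twistedSum f g h (fun n => φ (x n)) 1 r N = U708.VC.SY TP975.LR.lamI g h φ x r N f := by
      unfold twistedSum U708.VC.SY
      refine sum_congr rfl fun u _ => ?_
      rw [one_mul]
      rfl
    rw [e]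
    exact key

end Pool.Agent.Results.MP_648c71_nt.LowComplexity
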