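import Pool.Agent.U108.SW.E

set_option autoImplicit false

/-!
# The Liouville function at polynomial values, summed over bounded sparse sets of arguments, for almost all constant terms

Chowla's conjecture predicts cancellation in the sums of `λ(f(t))` over the `t ≤ y` in an arithmetic progression. Here the
arguments `t` run through the integers with `k` digits in base `b`, each digit in an arbitrary set of at least two digits
which may depend on the place, for example through the integers whose decimal digits are `0` or `1`. The number `k` of the digits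
is only assumed to be at least a constant, so that the sums may have a BOUNDED number of terms, spread over a range of which
they may occupy less than an arbitrarily small power; the constant terms `c` of the polynomials `f = F + c` of degree at least two
run through `1, …, X`, where `X` may be arbitrarily large compared with the length of the sums. For all but `ε X` of the `c` there
is cancellation over ALL initial segments of ALL residue classes of bounded modulus, with arbitrary bounded coefficients.

Method (new, `Pool.Agent.U108`): by a multilinear inequality of Weyl type for disjoint windows of digits the values `F(t)` have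
an additive energy of high order which is minimal UP TO A CONSTANT (`U108.DP.poly_energy`). By the theorem `TH823.MRS.gen` of
the starting files on families of shifts of minimal energy (which rests on the theorem of Matomäki, Radziwiłł and Tao) the
values `λ(F(t) + c)` and `λ(F(t') + c)` are orthogonal in `c` for almost all pairs `t, t'` (`U108.SW.arg`); a pigeonhole argument
on the upper digits gives all segments (`U108.SW.seg`).

Definitions used: from Mathlib: `ArithmeticFunction.cardFactors n`: the number of the prime factors of `n` with multiplicity;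
from `Pool.Agent.TH872.GQ` (starting files): `S b D k`: the integers `0 ≤ n < b ^ k` whose `i`-th digit in base `b` lies
in `D i`, for all `i < k`.
-/

namespace Pool.Agent.Results.MP_648c71_nt.SparseShortSums

open Finset
open ArithmeticFunction (cardFactors)
open Pool.Agent.TH872.GQ (S)
open scoped Polynomial

/-- The Liouville function on the integers, `λ(-m) = λ(m)` and `λ(0) = 0`. -/
noncomputable def lam (m : ℤ) : ℂ := if m = 0 then 0 else (-1) ^ cardFactors m.natAbs

/-- For all the coefficients `G l`, all `y`, all `q` between `1` and `B` and all `a` the sum of `G l (t) λ(f(t))` over the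
`t ∈ S b D k` with `t < y` and `t ≡ a` modulo `q` (`a` the least residue) is at most `ε` times the number of the elements
of `S b D k`. -/
def Small (ε : ℝ) (b k B : ℕ) {L : ℕ} (D : ℕ → Finset ℕ) (G : Fin L → ℕ → ℂ) (f : ℤ[X]) : Prop :=
  ∀ (l : Fin L) (y q a : ℕ), 1 ≤ q → q ≤ B →
    ‖∑ t ∈ (S b D k).filter (fun t => t < y ∧ t % q = a), G l t * lam (f.eval (t : ℤ))‖ ≤ ε * (S b D k).card

/-- **The Liouville function at polynomial values over bounded sparse sets of arguments, for almost all constant terms.** Let a base
`b ≥ 2`, a degree `d ≥ 2`, `B`, `L` and `ε > 0` be fixed. There are `k₀` and `X₀` such that for all `X ≥ X₀` and `k ≥ k₀` with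
`b ^ (d k) ≤ X`, ALL sets `D_0, …, D_(k-1)` of at least two digits in base `b`, ALL polynomials `F` of degree `d` with leading
coefficient at most `B` and values at most `B b ^ (d k)` on `S b D k` (in absolute value), and all coefficients `G_1, …, G_L`
with `|G_l| ≤ 1`: the polynomial `f = F + c` has the property `Small ε b k B D G f` for all but at most `ε X` of the
`c = 1, …, X`. -/
theorem result (b d B L : ℕ) (hb : 2 ≤ b) (hd : 2 ≤ d) (ε : ℝ) (hε : 0 < ε) :
    ∃ k₀ X₀ : ℕ, ∀ X k : ℕ, X₀ ≤ X → k₀ ≤ k → b ^ (d * k) ≤ X →
      ∀ D : ℕ → Finset ℕ, (∀ i < k, D i ⊆ range b ∧ 2 ≤ (D i).card) →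
      ∀ F : ℤ[X], F.natDegree = d → |F.leadingCoeff| ≤ B → (∀ n ∈ S b D k, |F.eval (n : ℤ)| ≤ B * (b : ℤ) ^ (d * k)) →
      ∀ G : Fin L → ℕ → ℂ, (∀ l n, ‖G l n‖ ≤ 1) →
      ∃ E ⊆ Icc 1 X, (E.card : ℝ) ≤ ε * X ∧ ∀ c ∈ Icc 1 X, c ∉ E → Small ε b k B D G (F + Polynomial.C (c : ℤ)) := by
  obtain ⟨r, rfl⟩ : ∃ r, d = r + 2 := ⟨d - 2, by omega⟩
  obtain ⟨k₀, X₀, h1⟩ := Pool.Agent.U108.SW.seg Pool.Agent.H373R2.T7.liR Pool.Agent.H373R2.T7.liR_norm
    Pool.Agent.TH823.MRS.liR_E b r B L hb ε hε
  refine ⟨k₀, X₀, fun N k hN hk hbN D hD F hF hlc hv G hG => ?_⟩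
  obtain ⟨E, hE1, hE2, hE3⟩ := h1 N k hN hk hbN D hD F hF hlc hv G hG
  refine ⟨E, hE1, hE2, fun c hc1 hc2 l y q a hq1 hq2 => ?_⟩
  have h2 := hE3 c hc1 hc2 l y q a hq1 hq2
  refine le_trans (le_of_eq ?_) h2
  unfold Pool.Agent.U108.LV.SU
  congr 1
  refine sum_congr (by congr) fun t _ => ?_
  rw [Polynomial.eval_add, Polynomial.eval_C]
  rfl

end Pool.Agent.Results.MP_648c71_nt.SparseShortSums
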