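import Pool.Agent.U708.RPC.Pat

/-!
# Square root cancellation of the Liouville function at the values of almost all polynomials

For almost all polynomials `f` of degree `d` and height `H`, for all progressions and all segments of them
up to any power of `log H`, and for all sets `J` of at most `k` shifts, `m k ≤ d`: the sums of
`∏_{j ∈ J} λ(f(n + j))` are bounded by the square root of the number of terms (up to `(log H) ^ ε` and to
the `2 m`-th root of the ratio of the last term and the number of terms), and all the patterns of signs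
of `λ(f(n + j))`, `j ∈ J`, occur with the expected frequency, with an error term of the same quality. The
case `J = {0}` is the sum of Chowla's conjecture.

Proof. `TP975/LR` (starting files): the moments of the sums over the coefficients of `f`. The values at up
to `2 d + 1` points are compared with independent random signs (complexity one: a bilinear estimate and
Davenport's bound for the exponential sums with the Liouville function), and a maximal inequality for all
segments. `U708/RPC/Pat`: the patterns of signs.
-/

set_option autoImplicit false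

namespace Pool.Agent.Results.MP_648c71_nt.SquareRootCancellation

open Finset

/-- The Liouville function on the integers, with `λ(-n) = λ(n)` and `λ(0) = 0`. -/
noncomputable def liouville (n : ℤ) : ℝ := if n = 0 then 0 else (-1) ^ ArithmeticFunction.cardFactors n.natAbs

/-- The value at `t` of the polynomial `f` with the coefficients `f 0, ..., f d`. -/
def value {d : ℕ} (f : Fin (d + 1) → ℤ) (t : ℤ) : ℤ := ∑ c, f c * t ^ (c : ℕ)

/-- The polynomials of degree at most `d` with coefficients in `[-H, H]`. -/
noncomputable def polynomials (d H : ℕ) : Finset (Fin (d + 1) → ℤ) := Fintype.piFinset fun _ => Icc (-(H : ℤ)) H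

/-- The sum of `∏_{j ∈ J} λ(f(n + j))` over the `n = r + q u`, `1 ≤ u ≤ N`. -/
noncomputable def correlation {d : ℕ} (f : Fin (d + 1) → ℤ) (J : Finset ℤ) (q r N : ℕ) : ℝ :=
  ∑ u ∈ Icc 1 N, ∏ j ∈ J, liouville (value f (((r + q * u : ℕ) : ℤ) + j))

/-- The number of the `n = r + q u`, `1 ≤ u ≤ N`, such that `λ(f(n + j)) = -1` for `j ∈ J`, `j ∈ S`, and
`λ(f(n + j)) = 1` for `j ∈ J`, `j ∉ S`. -/
noncomputable def pattern {d : ℕ} (f : Fin (d + 1) → ℤ) (J S : Finset ℤ) (q r N : ℕ) : ℕ :=
  ((Icc 1 N).filter (fun u : ℕ => ∀ j ∈ J, liouville (value f (((r + q * u : ℕ) : ℤ) + j)) =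
    if j ∈ S then -1 else 1)).card

/-- **Square root cancellation of the Liouville function for almost all polynomials.** Let `k, m ≥ 1`,
`m k ≤ d`, and let `A` and `ε > 0` be given. There is `η > 0` such that for large `H` and for all nonzero
polynomials `f` of degree at most `d` with coefficients in `[-H, H]`, with a proportion of at most
`(log H) ^ (-η)` exceptions: for ALL sets `J` of at most `k` shifts `0 ≤ j ≤ (log H) ^ η` and ALL
progressions and segments `r + q u`, `1 ≤ u ≤ N`, with `r + q N ≤ (log H) ^ A`
* the sum of `∏_{j ∈ J} λ(f(n + j))` over the segment is at most the `2 m`-th root of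
  `q (r + q N) N ^ (m - 1) (log H) ^ ε` (so that it is at most `N ^ (1 / 2) (log H) ^ ε` for the initial
  segments of `ℕ`),
* every pattern of signs of `λ(f(n + j))`, `j ∈ J`, occurs `N / 2 ^ |J|` times in the segment, up to an
  error of the same size. -/
theorem result (d A k m : ℕ) (hk : 1 ≤ k) (hm : 1 ≤ m) (hkm : m * k ≤ d) (ε : ℝ) (hε : 0 < ε) :
    ∃ η : ℝ, 0 < η ∧ ∃ H₀ : ℕ, ∀ H : ℕ, H₀ ≤ H → ∃ Bad ⊆ polynomials d H,
      (Bad.card : ℝ) ≤ (polynomials d H).card / Real.log H ^ η ∧
      ∀ f ∈ polynomials d H, f ∉ Bad → f ≠ 0 →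
      ∀ J : Finset ℤ, 1 ≤ J.card → J.card ≤ k → (∀ j ∈ J, 0 ≤ j ∧ (j : ℝ) ≤ Real.log H ^ η) →
      ∀ q r N : ℕ, 1 ≤ q → 1 ≤ N → ((r + q * N : ℕ) : ℝ) ≤ Real.log H ^ A →
        correlation f J q r N ^ (2 * m) ≤
          (q : ℝ) * ((r + q * N : ℕ) : ℝ) * (N : ℝ) ^ (m - 1) * Real.log H ^ ε ∧
        ∀ S : Finset ℤ, |(pattern f J S q r N : ℝ) - N / 2 ^ J.card| ^ (2 * m) ≤
          (q : ℝ) * ((r + q * N : ℕ) : ℝ) * (N : ℝ) ^ (m - 1) * Real.log H ^ ε :=
  Pool.Agent.U708.RPC.patterns d A k m hk hm hkm ε hε

end Pool.Agent.Results.MP_648c71_nt.SquareRootCancellation
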